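import Pool.Agent.Helper981.Wright.Final

set_option autoImplicit false

open MeasureTheory

namespace Pool.Agent.Results.MP_a6b860_an.TwoModuli

/-- Euclidean space `ℝ^d`. -/
abbrev Rd (d : ℕ) : Type := EuclideanSpace ℝ (Fin d)

/-- Lebesgue measure on `ℝ^d`. -/
noncomputable def leb (d : ℕ) : Measure (Rd d) := volume

/-- The Hilbert space `L²(ℝ^d; ℂ)`. -/
abbrev L2 (d : ℕ) : Type := Lp ℂ 2 (leb d)

/-- Unitary operators of `L²(ℝ^d)`: surjective linear isometries. -/
def UnitaryOp (d : ℕ) : Type := L2 d ≃ₗᵢ[ℂ] L2 d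

/-- The value of a unitary operator at a vector. -/
noncomputable def ap {d : ℕ} (U : UnitaryOp d) (f : L2 d) : L2 d := U.toLinearEquiv f

/-- `|f| = |g|` almost everywhere. -/
def SameModulus {d : ℕ} (f g : L2 d) : Prop := ∀ᵐ x ∂(leb d), ‖f x‖ = ‖g x‖

/-- `f = c g` in `L²(ℝ^d)` (that is, almost everywhere) for a unimodular constant `c`. -/
def EqUpToPhase {d : ℕ} (f g : L2 d) : Prop := ∃ c : ℂ, ‖c‖ = 1 ∧ ∀ᵐ x ∂(leb d), f x = c * g x

/-- For every dimension `d` there is a unitary operator `U` on `L²(ℝ^d)` such that the two moduli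
`|f|` and `|U f|` already determine `f` up to a unimodular constant factor. -/
theorem result (d : ℕ) : ∃ U : UnitaryOp d, ∀ f g : L2 d,
    SameModulus f g → SameModulus (ap U f) (ap U g) → EqUpToPhase f g := by
  obtain ⟨U, hU⟩ := Pool.Agent.Helper981.Wright.two_moduli d
  refine ⟨U, fun f g h1 h2 => ?_⟩
  obtain ⟨c, hc, h⟩ := hU f g h1 h2
  refine ⟨c, hc, ?_⟩
  subst h
  filter_upwards [Lp.coeFn_smul (μ := (volume : Measure (Rd d))) c g] with x hx
  exact hx

end Pool.Agent.Results.MP_a6b860_an.TwoModuli
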